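import Pool.Agent.Lib.MP_997b73_pr.Core

set_option autoImplicit false

namespace Pool.Agent.Results.MP_997b73_pr.MirrorCriterion

open Pool.Agent.Lib.MP_997b73_pr

/-- The mirror criterion. Let `p`, `q` be finitely supported probability mass functions on `ℤ` whose
convolution takes a single value on its support; `x`, `y` are the least and the greatest point of the
support of `p`, and `z`, `w` those of the support of `q`.  Suppose: if `d > 0` is the least positive
integer with `p (x + d) ≠ 0` and `q (z + d) ≠ 0` (if there is one), then `p (y - d) ≠ 0` or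
`q (w - d) ≠ 0`.  Then `p` and `q` are constant on their supports.

The hypothesis holds for instance when the support of `p` is symmetric, and when the two supports,
translated to start at `0`, have only `0` in common. -/
theorem result :
    ∀ (S T : Finset ℤ) (p q : ℤ → ℝ),
      (∀ a, 0 ≤ p a) → (∀ b, 0 ≤ q b) →
      (∀ a, a ∉ S → p a = 0) → (∀ b, b ∉ T → q b = 0) →
      (∑ a ∈ S, p a = 1) → (∑ b ∈ T, q b = 1) →
      (∀ n m : ℤ, (∑ a ∈ S, p a * q (n - a)) ≠ 0 →
          (∑ a ∈ S, p a * q (m - a)) ≠ 0 →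
          (∑ a ∈ S, p a * q (n - a)) = ∑ a ∈ S, p a * q (m - a)) →
      ∀ x y z w : ℤ,
        p x ≠ 0 → p y ≠ 0 → (∀ a, p a ≠ 0 → x ≤ a ∧ a ≤ y) →
        q z ≠ 0 → q w ≠ 0 → (∀ b, q b ≠ 0 → z ≤ b ∧ b ≤ w) →
        (∀ d : ℤ, 0 < d → p (x + d) ≠ 0 → q (z + d) ≠ 0 →
            (∀ e : ℤ, 0 < e → e < d → p (x + e) = 0 ∨ q (z + e) = 0) →
            p (y - d) ≠ 0 ∨ q (w - d) ≠ 0) →
      (∀ a a' : ℤ, p a ≠ 0 → p a' ≠ 0 → p a = p a') ∧
      (∀ b b' : ℤ, q b ≠ 0 → q b' ≠ 0 → q b = q b') := by
  intro S T p q hp hq hpS hqT hps hqs huni x y z w hpx hpy hxy hqz hqw hzw hcase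
  have hpair : Pair S T p q := ⟨hp, hq, hpS, hqT, hps, hqs, huni⟩
  have hx : ∀ a, a < x → p a = 0 := fun a ha => by
    by_contra hc
    exact absurd (hxy a hc).1 (not_le.mpr ha)
  have hy : ∀ a, y < a → p a = 0 := fun a ha => by
    by_contra hc
    exact absurd (hxy a hc).2 (not_le.mpr ha)
  have hz : ∀ a, a < z → q a = 0 := fun a ha => by
    by_contra hc
    exact absurd (hzw a hc).1 (not_le.mpr ha)
  have hw : ∀ a, w < a → q a = 0 := fun a ha => by
    by_contra hc
    exact absurd (hzw a hc).2 (not_le.mpr ha)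
  have h := hpair.norm (hxy y hpy).1 hpx hpy hx hy (hzw w hqw).1 hqz hqw hz hw
  have h01 := h.zero_one_of_crit (by
    intro d hd h1 h2 h3
    have h1' : p (x + d) ≠ 0 := fun h0 => h1 (by simp only [h0, zero_div])
    have h2' : q (z + d) ≠ 0 := fun h0 => h2 (by simp only [h0, zero_div])
    have h3' : ∀ e : ℤ, 0 < e → e < d → p (x + e) = 0 ∨ q (z + e) = 0 := by
      intro e he1 he2
      rcases h3 e he1 he2 with h4 | h4
      · left
        rcases div_eq_zero_iff.mp h4 with h5 | h5
        · exact h5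
        · exact absurd h5 hpx
      · right
        rcases div_eq_zero_iff.mp h4 with h5 | h5
        · exact h5
        · exact absurd h5 hqz
    rcases hcase d hd h1' h2' h3' with h4 | h4
    · left
      rw [show x + (y - x - d) = y - d by ring]
      exact div_ne_zero h4 hpx
    · right
      rw [show z + (w - z - d) = w - d by ring]
      exact div_ne_zero h4 hqz)
  exact ⟨const_of_zero_one hpx h01.1, const_of_zero_one hqz h01.2⟩

end Pool.Agent.Results.MP_997b73_pr.MirrorCriterion
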