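import Pool.Agent.Lib.MP_997b73_pr.Prefix

set_option autoImplicit false

namespace Pool.Agent.Results.MP_997b73_pr.SymmetricSupport

open Pool.Agent.Lib.MP_997b73_pr

/-- Let `p`, `q` be finitely supported probability mass functions on `ℤ` whose convolution `r` takes a
single value on its support `R`; `x`, `y` are the least and the greatest point of the support of `p`,
`z`, `w` those of the support of `q`, so `x + z` and `y + w` are the extreme points of `R`.

(1) If `x + z + i ∈ R` if and only if `y + w - i ∈ R`, for all `i` with `0 ≤ i < k`, then the values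
`p (x + i)` and `p (y - i)` are `0` or `p x`, and `q (z + i)` and `q (w - i)` are `0` or `q z`, for
`0 ≤ i < k`.  (No other hypothesis: this holds for all pairs, up to the first asymmetry of `R`.)

(2) Suppose that `x + z + i ∈ R` if and only if `y + w - i ∈ R`, for all `i` with
`0 ≤ i ≤ min (y - x) (w - z) / 2`.  Then `p` and `q` are constant on their supports.

In particular the answer to the question is yes whenever the support of `X + Y` is symmetric, or if
just its outer quarters are mirror images of each other. -/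
theorem result :
    ∀ (S T : Finset ℤ) (p q : ℤ → ℝ),
      (∀ a, 0 ≤ p a) → (∀ b, 0 ≤ q b) →
      (∀ a, a ∉ S → p a = 0) → (∀ b, b ∉ T → q b = 0) →
      (∑ a ∈ S, p a = 1) → (∑ b ∈ T, q b = 1) →
      (∀ n m : ℤ, (∑ a ∈ S, p a * q (n - a)) ≠ 0 →
          (∑ a ∈ S, p a * q (m - a)) ≠ 0 →
          (∑ a ∈ S, p a * q (n - a)) = ∑ a ∈ S, p a * q (m - a)) →
      ∀ x y z w : ℤ,
        p x ≠ 0 → p y ≠ 0 → (∀ a, p a ≠ 0 → x ≤ a ∧ a ≤ y) →
        q z ≠ 0 → q w ≠ 0 → (∀ b, q b ≠ 0 → z ≤ b ∧ b ≤ w) →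
        (∀ k : ℤ,
          (∀ i : ℤ, 0 ≤ i → i < k →
            (∑ a ∈ S, p a * q (x + z + i - a) ≠ 0 ↔ ∑ a ∈ S, p a * q (y + w - i - a) ≠ 0)) →
          ∀ i : ℤ, 0 ≤ i → i < k →
            (p (x + i) = 0 ∨ p (x + i) = p x) ∧ (p (y - i) = 0 ∨ p (y - i) = p x) ∧
            (q (z + i) = 0 ∨ q (z + i) = q z) ∧ (q (w - i) = 0 ∨ q (w - i) = q z)) ∧
        ((∀ i : ℤ, 0 ≤ i → 2 * i ≤ y - x → 2 * i ≤ w - z →
          (∑ a ∈ S, p a * q (x + z + i - a) ≠ 0 ↔ ∑ a ∈ S, p a * q (y + w - i - a) ≠ 0)) →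
        (∀ a a' : ℤ, p a ≠ 0 → p a' ≠ 0 → p a = p a') ∧
        (∀ b b' : ℤ, q b ≠ 0 → q b' ≠ 0 → q b = q b')) := by
  intro S T p q hp hq hpS hqT hps hqs huni x y z w hpx hpy hxy hqz hqw hzw
  have hpair : Pair S T p q := ⟨hp, hq, hpS, hqT, hps, hqs, huni⟩
  have hx : ∀ a, a < x → p a = 0 := fun a ha => by
    by_contra hc
    exact absurd (hxy a hc).1 (not_le.mpr ha)
  have hy : ∀ a, y < a → p a = 0 := fun a ha => by
    by_contra hc
    exact absurd (hxy a hc).2 (not_le.mpr ha)
  have hz : ∀ a, a < z → q a = 0 := fun a ha => by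
    by_contra hc
    exact absurd (hzw a hc).1 (not_le.mpr ha)
  have hw : ∀ a, w < a → q a = 0 := fun a ha => by
    by_contra hc
    exact absurd (hzw a hc).2 (not_le.mpr ha)
  have h := hpair.norm (hxy y hpy).1 hpx hpy hx hy (hzw w hqw).1 hqz hqw hz hw
  obtain ⟨M, hM⟩ := Int.eq_ofNat_of_zero_le h.m0
  obtain ⟨N, hN⟩ := Int.eq_ofNat_of_zero_le h.n0
  rw [hM, hN] at h
  have hpq : p x * q z ≠ 0 := mul_ne_zero hpx hqz
  -- symmetry of the outer parts of the support, for the normalised pair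
  have hPS : ∀ k : ℕ, (∀ i : ℕ, i < k →
      (∑ a ∈ S, p a * q (x + z + i - a) ≠ 0 ↔ ∑ a ∈ S, p a * q (y + w - i - a) ≠ 0)) →
      PS k (poly (fun i => p (x + i) / p x) M * poly (fun i => q (z + i) / q z) N) := by
    intro k hk
    apply h.PS_of
    intro i hi
    have h1 := hk i hi
    rw [hpair.conv_eq hpx hx hy hqz i,
      show y + w - (i : ℤ) = x + z + (M + N - i) by rw [← hM, ← hN]; ring,
      hpair.conv_eq hpx hx hy hqz (M + N - i), hM] at h1
    constructor
    · intro h2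
      exact right_ne_zero_of_mul (h1.mp (mul_ne_zero hpq h2))
    · intro h2
      exact right_ne_zero_of_mul (h1.mpr (mul_ne_zero hpq h2))
  refine ⟨fun k hk i hi0 hik => ?_, fun hsym => ?_⟩
  · obtain ⟨j, rfl⟩ := Int.eq_ofNat_of_zero_le hi0
    obtain ⟨n, rfl⟩ := Int.eq_ofNat_of_zero_le (hi0.trans hik.le)
    have h1 := h.prefix_zero_one (hPS n fun i hi =>
      hk i (Int.natCast_nonneg i) (by exact_mod_cast hi)) j (by exact_mod_cast hik)
    have key : ∀ {u v : ℝ}, v ≠ 0 → (u / v = 0 ∨ u / v = 1) → (u = 0 ∨ u = v) := by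
      intro u v hv h2
      rcases h2 with h2 | h2
      · left
        rcases div_eq_zero_iff.mp h2 with h3 | h3
        · exact h3
        · exact absurd h3 hv
      · right
        exact (div_eq_one_iff_eq hv).mp h2
    obtain ⟨g1, g2, g3, g4⟩ := h1
    refine ⟨key hpx g1, ?_, key hqz g2, ?_⟩
    · have e : x + ((M : ℤ) - j) = y - j := by rw [← hM]; ring
      have g3' : p (x + ((M : ℤ) - j)) / p x = 0 ∨ p (x + ((M : ℤ) - j)) / p x = 1 := g3
      rw [e] at g3'
      exact key hpx g3'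
    · have e : z + ((N : ℤ) - j) = w - j := by rw [← hN]; ring
      have g4' : q (z + ((N : ℤ) - j)) / q z = 0 ∨ q (z + ((N : ℤ) - j)) / q z = 1 := g4
      rw [e] at g4'
      exact key hqz g4'
  · have h01 := h.zero_one_of_prefix (hPS (min (M / 2) (N / 2) + 1) fun i hi =>
      hsym i (Int.natCast_nonneg i) (by omega) (by omega)) (by omega)
    exact ⟨const_of_zero_one hpx h01.1, const_of_zero_one hqz h01.2⟩

end Pool.Agent.Results.MP_997b73_pr.SymmetricSupport
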