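import Pool.Agent.Lib.MP_997b73_pr.Tri.Top

set_option autoImplicit false

namespace Pool.Agent.Results.MP_997b73_pr.ThreePoints

open Pool.Agent.Lib.MP_997b73_pr

/-- Let `p`, `q` be finitely supported probability mass functions on `ℤ` whose convolution takes a
single value on its support.  If the support of `p` has at most three points, then `p` and `q` are
constant on their supports. -/
theorem result :
    ∀ (S T : Finset ℤ) (p q : ℤ → ℝ),
      (∀ a, 0 ≤ p a) → (∀ b, 0 ≤ q b) →
      (∀ a, a ∉ S → p a = 0) → (∀ b, b ∉ T → q b = 0) →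
      (∑ a ∈ S, p a = 1) → (∑ b ∈ T, q b = 1) →
      (∀ n m : ℤ, (∑ a ∈ S, p a * q (n - a)) ≠ 0 →
          (∑ a ∈ S, p a * q (m - a)) ≠ 0 →
          (∑ a ∈ S, p a * q (n - a)) = ∑ a ∈ S, p a * q (m - a)) →
      (S.filter fun a => p a ≠ 0).card ≤ 3 →
      (∀ a a' : ℤ, p a ≠ 0 → p a' ≠ 0 → p a = p a') ∧
      (∀ b b' : ℤ, q b ≠ 0 → q b' ≠ 0 → q b = q b') := by
  classical
  intro S T p q hp hq hpS hqT hps hqs huni hcard
  have hpair : Pair S T p q := ⟨hp, hq, hpS, hqT, hps, hqs, huni⟩
  obtain ⟨x, y, hxy, hpx, hpy, hx, hy⟩ := exists_minmax S p hpS hps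
  obtain ⟨z, w, hzw, hqz, hqw, hz, hw⟩ := exists_minmax T q hqT hqs
  have h := hpair.norm hxy hpx hpy hx hy hzw hqz hqw hz hw
  obtain ⟨M, hM⟩ := Int.eq_ofNat_of_zero_le h.m0
  obtain ⟨N, hN⟩ := Int.eq_ofNat_of_zero_le h.n0
  rw [hM, hN] at h
  have hmem : ∀ a, p a ≠ 0 → a ∈ S.filter fun a => p a ≠ 0 := fun a ha => by
    rw [Finset.mem_filter]
    exact ⟨by by_contra h; exact ha (hpS a h), ha⟩
  -- the third point
  obtain ⟨u, hu⟩ : ∃ u, ∀ a, p a ≠ 0 → a = x ∨ a = u ∨ a = y := by
    by_cases hex : ∃ u, p u ≠ 0 ∧ u ≠ x ∧ u ≠ y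
    · obtain ⟨u, hu, hux, huy⟩ := hex
      refine ⟨u, fun a ha => ?_⟩
      by_contra hcon
      push Not at hcon
      obtain ⟨h1, h2, h3⟩ := hcon
      by_cases hxy' : x = y
      · rcases lt_trichotomy u x with h4 | h4 | h4
        · exact hu (hx u h4)
        · exact hux h4
        · exact hu (hy u (by omega))
      · have h4 : ({x, y, u, a} : Finset ℤ) ⊆ S.filter fun a => p a ≠ 0 := by
          intro v hv
          simp only [Finset.mem_insert, Finset.mem_singleton] at hv
          rcases hv with rfl | rfl | rfl | rfl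
          · exact hmem _ hpx
          · exact hmem _ hpy
          · exact hmem _ hu
          · exact hmem _ ha
        have h5 : ({x, y, u, a} : Finset ℤ).card = 4 := by
          rw [Finset.card_insert_of_notMem, Finset.card_insert_of_notMem, Finset.card_pair]
          · exact Ne.symm h2
          · simp only [Finset.mem_insert, Finset.mem_singleton]
            omega
          · simp only [Finset.mem_insert, Finset.mem_singleton]
            omega
        have h6 := Finset.card_le_card h4
        omega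
    · push Not at hex
      refine ⟨x, fun a ha => ?_⟩
      by_cases hax : a = x
      · exact Or.inl hax
      · exact Or.inr (Or.inr (hex a ha hax))
  have h01 := Tri.norm_tri h (u - x) (by
    intro i hi
    have h1 : p (x + i) ≠ 0 := by
      intro h0
      apply hi
      show p (x + i) / p x = 0
      rw [h0, zero_div]
    have h2 := hu _ h1
    omega)
  exact ⟨const_of_zero_one hpx h01.1, const_of_zero_one hqz h01.2⟩

end Pool.Agent.Results.MP_997b73_pr.ThreePoints
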