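import Pool.Agent.Lib.MP_997b73_pr.Real

set_option autoImplicit false

namespace Pool.Agent.Results.MP_997b73_pr.TotallyReal

open Pool.Agent.Lib.MP_997b73_pr

/-- Let `p`, `q` be finitely supported probability mass functions on `ℤ` whose convolution takes a
single value on its support.  Suppose that every value of `p` is a totally real number (all complex
roots of its minimal polynomial over `ℚ` are real).  Then `p` and `q` are constant on their
supports. -/
theorem result :
    ∀ (S T : Finset ℤ) (p q : ℤ → ℝ),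
      (∀ a, 0 ≤ p a) → (∀ b, 0 ≤ q b) →
      (∀ a, a ∉ S → p a = 0) → (∀ b, b ∉ T → q b = 0) →
      (∑ a ∈ S, p a = 1) → (∑ b ∈ T, q b = 1) →
      (∀ n m : ℤ, (∑ a ∈ S, p a * q (n - a)) ≠ 0 →
          (∑ a ∈ S, p a * q (m - a)) ≠ 0 →
          (∑ a ∈ S, p a * q (n - a)) = ∑ a ∈ S, p a * q (m - a)) →
      (∀ a, ∀ ζ : ℂ, Polynomial.aeval ζ (minpoly ℚ (p a)) = 0 → ζ.im = 0) →
      (∀ a a' : ℤ, p a ≠ 0 → p a' ≠ 0 → p a = p a') ∧
      (∀ b b' : ℤ, q b ≠ 0 → q b' ≠ 0 → q b = q b') := by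
  intro S T p q hp hq hpS hqT hps hqs huni hc
  have hpair : Pair S T p q := ⟨hp, hq, hpS, hqT, hps, hqs, huni⟩
  obtain ⟨x, y, hxy, hpx, hpy, hx, hy⟩ := exists_minmax S p hpS hps
  obtain ⟨z, w, hzw, hqz, hqw, hz, hw⟩ := exists_minmax T q hqT hqs
  have h := hpair.norm hxy hpx hpy hx hy hzw hqz hqw hz hw
  obtain ⟨M, hM⟩ := Int.eq_ofNat_of_zero_le h.m0
  obtain ⟨N, hN⟩ := Int.eq_ofNat_of_zero_le h.n0
  rw [hM, hN] at h
  have h01 : (∀ i, p (x + i) / p x = 0 ∨ p (x + i) / p x = 1) ∧
      ∀ i, q (z + i) / q z = 0 ∨ q (z + i) / q z = 1 := by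
    have hfin : Set.Finite (Set.range p) := by
      apply Set.Finite.subset (Finset.finite_toSet (insert 0 (S.image p)))
      rintro _ ⟨a, rfl⟩
      rw [Finset.mem_coe, Finset.mem_insert]
      by_cases ha : a ∈ S
      · exact Or.inr (Finset.mem_image_of_mem p ha)
      · exact Or.inl (hpS a ha)
    have hfd : FiniteDimensional ℚ (IntermediateField.adjoin ℚ (Set.range p)) := by
      have : Finite (Set.range p) := hfin
      apply IntermediateField.finiteDimensional_adjoin
      rintro _ ⟨a, rfl⟩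
      exact algebraic_of_real (hc a)
    apply h.zero_one_of_real (IntermediateField.adjoin ℚ (Set.range p))
    · apply adjoin_real
      rintro _ ⟨a, rfl⟩
      exact hc a
    · intro i
      exact div_mem (IntermediateField.subset_adjoin ℚ _ ⟨_, rfl⟩)
        (IntermediateField.subset_adjoin ℚ _ ⟨_, rfl⟩)
  exact ⟨const_of_zero_one hpx h01.1, const_of_zero_one hqz h01.2⟩

end Pool.Agent.Results.MP_997b73_pr.TotallyReal
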